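import Pool.Agent.X40.Kron2

/-!
# MP_72c16c_nt: the maximal height of the divisors of `x ^ (p² q²) - 1`

For `p = 19`, `q = 149` the divisor `Φ_p Φ_q Φ_{p²q} Φ_{pq²} Φ_{p²q²}` has the height `835`, the two
products of the question have heights at most `801` and `361`.
-/

set_option autoImplicit false

namespace Pool.Agent.Results.MP_72c16c_nt.CounterExample

open Polynomial Finset Pool.Agent.X40 Pool.Agent.X40.Kr

def LA : List (List ℕ) := [[19], [149], [19, 19, 149], [149, 149, 19]]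
def LB : List (List ℕ) := [[19], [149], [19, 19], [149, 149]]
def LF : List (List ℕ) := [[19], [149], [19, 19, 149], [149, 149, 19], [19, 19, 149, 149]]

lemma primes {L : List (List ℕ)} (h : ∀ l ∈ L, ∀ p ∈ l, p = 19 ∨ p = 149) : ∀ l ∈ L, ∀ p ∈ l, p.Prime := by
  intro l hl p hp
  rcases h l hl p hp with rfl | rfl <;> norm_num

lemma le_A : H (CP LA) ≤ 801 :=
  ((Adm.list (B := 2 ^ 16) (by norm_num) (primes (by decide))).height2 (n := 447719) (by norm_num)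
    (by decide +kernel) (by decide +kernel)).1

lemma le_B2 : H (CP LB) ≤ 361 :=
  ((Adm.list (B := 2 ^ 16) (by norm_num) (primes (by decide))).height2 (n := 22561) (by norm_num)
    (by decide +kernel) (by decide +kernel)).1

set_option maxRecDepth 1000000 in
lemma coeff_F : (CP LF).coeff 1456798 = -835 := by
  have h := ((Adm.list (B := 2 ^ 18) (S := LF) (by norm_num) (primes (by decide))).height2
    (n := 7989503) (h := 835) (by norm_num) (by decide +kernel) (by decide +kernel)).2 1456798 (by norm_num)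
  rw [h]
  decide +kernel

/-- `Φ_p Φ_q Φ_{p²q} Φ_{pq²}` -/
noncomputable def F1 (p q : ℕ) : ℤ[X] :=
  cyclotomic p ℤ * cyclotomic q ℤ * cyclotomic (p ^ 2 * q) ℤ * cyclotomic (p * q ^ 2) ℤ

/-- `Φ_p Φ_q Φ_{p²} Φ_{q²}` -/
noncomputable def F2 (p q : ℕ) : ℤ[X] :=
  cyclotomic p ℤ * cyclotomic q ℤ * cyclotomic (p ^ 2) ℤ * cyclotomic (q ^ 2) ℤ

lemma F1_eq : F1 19 149 = CP LA := by
  rw [LA, CP_cons, CP_cons, CP_cons, CP_cons, F1]
  simp only [List.prod_cons, List.prod_nil, CP, List.map_nil]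
  norm_num
  ring

lemma F2_eq : F2 19 149 = CP LB := by
  rw [LB, CP_cons, CP_cons, CP_cons, CP_cons, F2]
  simp only [List.prod_cons, List.prod_nil, CP, List.map_nil]
  norm_num
  ring

lemma LF_eq : F1 19 149 * cyclotomic (19 ^ 2 * 149 ^ 2) ℤ = CP LF := by
  rw [F1_eq, LA, LF]
  rw [CP_cons, CP_cons, CP_cons, CP_cons, CP_cons, CP_cons, CP_cons, CP_cons, CP_cons]
  simp only [List.prod_cons, List.prod_nil, CP, List.map_nil]
  norm_num
  ring

lemma CP_LF : CP LF = ∏ d ∈ (LF.map List.prod).toFinset, cyclotomic d ℤ := by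
  rw [CP, List.prod_toFinset _ (by decide), List.map_map]
  rfl

lemma dvd_LF : ∀ d ∈ (LF.map List.prod).toFinset, d ∣ 19 ^ 2 * 149 ^ 2 := by decide +kernel

lemma CP_dvd {n : ℕ} (hn : n = 19 ^ 2 * 149 ^ 2) : CP LF ∣ X ^ n - 1 := by
  have hn0 : 0 < n := by rw [hn]; norm_num
  rw [CP_LF]
  apply prod_cyc_dvd hn0
  intro d hd
  rw [Nat.mem_divisors]
  exact ⟨hn ▸ dvd_LF d hd, hn0.ne'⟩

lemma F1_dvd : F1 19 149 * cyclotomic (19 ^ 2 * 149 ^ 2) ℤ ∣ X ^ (19 ^ 2 * 149 ^ 2) - 1 := by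
  rw [LF_eq]
  exact CP_dvd rfl

lemma le_H_F : 835 ≤ H (F1 19 149 * cyclotomic (19 ^ 2 * 149 ^ 2) ℤ) := by
  have h := le_H (F1 19 149 * cyclotomic (19 ^ 2 * 149 ^ 2) ℤ) 1456798
  rw [LF_eq, coeff_F] at h
  rw [LF_eq]
  exact h

/-- **Disproof of MP_72c16c_nt, Q1**: for `p = 19`, `q = 149` the divisor
`Φ_p Φ_q Φ_{p²q} Φ_{pq²} Φ_{p²q²}` of `x ^ (p² q²) - 1` has a larger height than both products. -/
theorem result :
    (¬ ∀ p q : ℕ, p.Prime → q.Prime → p < q → B (p ^ 2 * q ^ 2) = max (H (F1 p q)) (H (F2 p q))) ∧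
    H (F1 19 149) ≤ 801 ∧ H (F2 19 149) ≤ 361 ∧
    F1 19 149 * cyclotomic (19 ^ 2 * 149 ^ 2) ℤ ∣ X ^ (19 ^ 2 * 149 ^ 2) - 1 ∧
    835 ≤ H (F1 19 149 * cyclotomic (19 ^ 2 * 149 ^ 2) ℤ) := by
  have h1 : H (F1 19 149) ≤ 801 := F1_eq ▸ le_A
  have h2 : H (F2 19 149) ≤ 361 := F2_eq ▸ le_B2
  refine ⟨?_, h1, h2, F1_dvd, le_H_F⟩
  intro h
  have h3 := h 19 149 (by norm_num) (by norm_num) (by norm_num)
  have h4 := le_B (n := 19 ^ 2 * 149 ^ 2) (by norm_num) F1_dvd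
  have h5 := le_H_F
  rw [h3] at h4
  have h6 := h5.trans h4
  rcases le_max_iff.1 h6 with h7 | h7
  · exact absurd (h7.trans h1) (by norm_num)
  · exact absurd (h7.trans h2) (by norm_num)

end Pool.Agent.Results.MP_72c16c_nt.CounterExample
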